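import Mathlib
import Pool.Agent.H78.PB.ALL

/-!
# `‖T ^ n‖_p ≤ n ^ (1 - 2/p) (p - 1)` for every real `p ≥ 2` and all large `n`

The inequality of the question, with its exact constant, for all Schwartz functions, for EVERY real
`p ≥ 2` and all `n ≥ n₀`, where `n₀` is locally bounded in `p`.

Outline of the proof.

1. *Pitt's inequality for `2 < p < 4`.*  Write `θ` for the parameter with `p = 4 / (2 - θ)`.  For
   `h(x) = ∫ F(u) exp(2 π i x·u) du` the square `h ^ 2` is, by the kernel `|a| ^ (-1) ⋆ |b| ^ (-1)`,
   estimated along an analytic family between the exponents `2` (Plancherel) and `4` (the sharp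
   inequality of the even exponent `4`); the boundary values are bounded with explicit convolutions of
   Riesz kernels on the line of logarithmic radii and give a constant within half a percent of the
   conjectured constant `Γ(1/p) / Γ(1/q)` for all `2 < p < 4`.
2. *Doubling.*  An inequality for `p` gives one for `2 p`; this gives further exponents in `(4, 6)`.
3. *Passage to `T ^ n`.*  For every real `p ∈ (2, 6]` an inequality of Pitt with constant `G` gives
   `‖T ^ n‖_p ≤ (1 + o(1)) n ^ (1 - 2/p) G`: the kernel of `T ^ n` is, near the scale `n`, a chirp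
   which is linear on cells of intermediate size.
4. Interpolation (Riesz and Thorin) between seven exponents in `[2, 6]`, and between even exponents
   above `6`, and numerical inequalities for the Gamma function.
-/

set_option autoImplicit false

open MeasureTheory

namespace Pool.Agent.Results.MP_3dd6d4_an.AllRealExponents

/-- The `n`-th power of the Beurling transform of a Schwartz function: the Fourier multiplier with
symbol `(conj ξ / ξ) ^ n`, in the literal form of the frozen statement. -/
noncomputable def T (n : ℕ) (f : SchwartzMap ℂ ℂ) (z : ℂ) : ℂ :=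
  ∫ ξ : ℂ,
    Complex.exp (2 * (Real.pi : ℂ) * Complex.I * ((z.re * ξ.re + z.im * ξ.im : ℝ) : ℂ)) *
      ((starRingEnd ℂ ξ / ξ) ^ n *
        ∫ w : ℂ, Complex.exp (-(2 * (Real.pi : ℂ) * Complex.I *
          ((w.re * ξ.re + w.im * ξ.im : ℝ) : ℂ))) * f w)

/-- For every `P` there is `n₀` such that for all `n ≥ n₀`, all real `p ∈ [2, P]` and all Schwartz
functions `f`: `‖T ^ n f‖_p ≤ n ^ (1 - 2/p) (p - 1) ‖f‖_p`. -/
theorem result : ∀ P : ℝ, ∃ n₀ : ℕ, ∀ n : ℕ, n₀ ≤ n → ∀ p : ℝ, 2 ≤ p → p ≤ P →
    ∀ f : SchwartzMap ℂ ℂ,
      eLpNorm (T n f) (ENNReal.ofReal p) volume ≤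
        ENNReal.ofReal ((n : ℝ) ^ (1 - 2 / p) * (p - 1)) *
          eLpNorm (fun z : ℂ => f z) (ENNReal.ofReal p) volume :=
  Pool.Agent.H78.PB.ALL.main

end Pool.Agent.Results.MP_3dd6d4_an.AllRealExponents
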