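import Mathlib
import Pool.Agent.H78.PB.ALLC
import Pool.Agent.H15PB.CFA

/-!
# The norm of `T ^ n` is, within half a percent, the conjectured norm, for all large `n`

The conjectured norm of `T ^ n` on `L ^ p`, `p ≥ 2`, is `(1/q)_n / (1/p)_n` (rising factorials).  For
every real `p ≥ 2` and all `n ≥ n₀` (locally uniformly in `p`) this constant times `1.005` is
admissible if `p ≤ 6` or `p ≥ 10`, and this constant times `1.011` if `6 < p < 10`.

The proof uses the inequalities of Pitt's type for the real exponents `2 < p < 4` (see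
`AllRealExponents`), their doubles, the passage to `T ^ n` for real exponents, and interpolation, with
numerical inequalities for the Gamma function at the nodes.
-/

set_option autoImplicit false

open MeasureTheory

namespace Pool.Agent.Results.MP_3dd6d4_an.ComparisonConjecturedNorm

/-- The `n`-th power of the Beurling transform of a Schwartz function: the Fourier multiplier with
symbol `(conj ξ / ξ) ^ n`, in the literal form of the frozen statement. -/
noncomputable def T (n : ℕ) (f : SchwartzMap ℂ ℂ) (z : ℂ) : ℂ :=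
  ∫ ξ : ℂ,
    Complex.exp (2 * (Real.pi : ℂ) * Complex.I * ((z.re * ξ.re + z.im * ξ.im : ℝ) : ℂ)) *
      ((starRingEnd ℂ ξ / ξ) ^ n *
        ∫ w : ℂ, Complex.exp (-(2 * (Real.pi : ℂ) * Complex.I *
          ((w.re * ξ.re + w.im * ξ.im : ℝ) : ℂ))) * f w)

/-- The conjectured norm `(1/q)_n / (1/p)_n` of `T ^ n` on `L ^ p`, where `1/p + 1/q = 1`. -/
noncomputable def K (n : ℕ) (p : ℝ) : ℝ :=
  ∏ j ∈ Finset.range n, ((1 - 1 / p + j) / (1 / p + j))

open Classical in
/-- The factor: `1.005` for `p ≤ 6` and for `p ≥ 10`, and `1.011` for `6 < p < 10`. -/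
noncomputable def c (p : ℝ) : ℝ := if p ≤ 6 ∨ 10 ≤ p then 1.005 else 1.011

/-- For every `P` there is `n₀` such that for all `n ≥ n₀`, all real `p ∈ [2, P]` and all Schwartz
functions `f`: `‖T ^ n f‖_p ≤ c(p) (1/q)_n / (1/p)_n ‖f‖_p`. -/
theorem result : ∀ P : ℝ, ∃ n₀ : ℕ, ∀ n : ℕ, n₀ ≤ n → ∀ p : ℝ, 2 ≤ p → p ≤ P →
    ∀ f : SchwartzMap ℂ ℂ,
      eLpNorm (T n f) (ENNReal.ofReal p) volume ≤
        ENNReal.ofReal (c p * K n p) * eLpNorm (fun z : ℂ => f z) (ENNReal.ofReal p) volume := by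
  intro P
  obtain ⟨n₀, h⟩ := Pool.Agent.H15PB.CFA.t Pool.Agent.H78.PB.ALLC.cfi
    Pool.Agent.N892.BW.ALL.ful Pool.Agent.N892.BW.ALL.amg Pool.Agent.N892.BW.ALL.hoe
    Pool.Agent.N892.BW.ALL.rtt P
  refine ⟨n₀, fun n hn p hp2 hpP f => ?_⟩
  have h1 := h n hn p hp2 hpP f
  have hc : c p = Pool.Agent.H78.PB.cfac p := by
    unfold c Pool.Agent.H78.PB.cfac
    split_ifs <;> norm_num
  rw [hc]
  exact h1

end Pool.Agent.Results.MP_3dd6d4_an.ComparisonConjecturedNorm
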