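import Mathlib
import Pool.Agent.H78.PB.ALLC
import Pool.Agent.H78.PB.LIM
import Pool.Agent.H78.PB.FOC
import Pool.Agent.H78.PB.FOU
import Pool.Agent.H78.PB.DEN

/-!
# The norms of `T ^ n` and the inequality of Pitt

`‖T ^ n‖_p / n ^ (1 - 2/p)` converges, for every real `p ∈ [2.2, 6]`, and `π ^ (1 - 2/p)` times the
limit is the best constant `C` in Pitt's inequality `‖F̂‖_p ≤ C ‖|u| ^ (2 - 4/p) F‖_p` for the Fourier
transform of the plane.  For every real `p > 2` a bound `‖T ^ n‖_p ≤ C n ^ (1 - 2/p)`, for infinitely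
many `n`, implies Pitt's inequality with the constant `π ^ (1 - 2/p) C`.

From `T ^ n` to Pitt: the waves `4 π² conj (K_n (w)) F (2 n / conj w)`, where `K_n` is the kernel of
`T ^ n`, are focused by `T ^ n` to the Fourier integral of `F`, and their norms are known exactly.
From Pitt to `T ^ n`: the kernel of `T ^ n` is, far away, a chirp which is linear on cells.
-/

set_option autoImplicit false

open MeasureTheory Filter Topology

namespace Pool.Agent.Results.MP_3dd6d4_an.LimitIsPittConstant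

/-- The `n`-th power of the Beurling transform of a Schwartz function: the Fourier multiplier with
symbol `(conj ξ / ξ) ^ n`, in the literal form of the frozen statement. -/
noncomputable def T (n : ℕ) (f : SchwartzMap ℂ ℂ) (z : ℂ) : ℂ :=
  ∫ ξ : ℂ,
    Complex.exp (2 * (Real.pi : ℂ) * Complex.I * ((z.re * ξ.re + z.im * ξ.im : ℝ) : ℂ)) *
      ((starRingEnd ℂ ξ / ξ) ^ n *
        ∫ w : ℂ, Complex.exp (-(2 * (Real.pi : ℂ) * Complex.I *
          ((w.re * ξ.re + w.im * ξ.im : ℝ) : ℂ))) * f w)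

/-- `‖T ^ n f‖_p ≤ C ‖f‖_p` for all Schwartz functions `f` -/
def Bound (n : ℕ) (p C : ℝ) : Prop := ∀ f : SchwartzMap ℂ ℂ,
  eLpNorm (T n f) (ENNReal.ofReal p) volume ≤
    ENNReal.ofReal C * eLpNorm (fun z : ℂ => f z) (ENNReal.ofReal p) volume

/-- the norm of `T ^ n` on `L ^ p`: the infimum of the admissible constants -/
noncomputable def normT (n : ℕ) (p : ℝ) : ℝ := sInf {C : ℝ | 0 ≤ C ∧ Bound n p C}

/-- the Fourier transform -/
noncomputable def fourier (F : ℂ → ℂ) (ξ : ℂ) : ℂ :=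
  ∫ w : ℂ, Complex.exp (-(2 * (Real.pi : ℂ) * Complex.I *
    ((w.re * ξ.re + w.im * ξ.im : ℝ) : ℂ))) * F w

/-- Pitt's inequality with constant `C`, for bounded measurable functions with bounded support -/
def Pitt (p C : ℝ) : Prop := ∀ F : ℂ → ℂ,
  (Measurable F ∧ (∃ M : ℝ, ∀ x, ‖F x‖ ≤ M) ∧ ∃ R : ℝ, ∀ x, R < ‖x‖ → F x = 0) →
  ∫⁻ ξ, ‖fourier F ξ‖ₑ ^ p ≤ ENNReal.ofReal (C ^ p) * ∫⁻ u, ‖F u‖ₑ ^ p * ‖u‖ₑ ^ (2 * p - 4)

/-- the best constant in Pitt's inequality -/
noncomputable def pittConst (p : ℝ) : ℝ := sInf {C : ℝ | 0 ≤ C ∧ Pitt p C}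

open Pool.Agent.H78.PB Pool.Agent.N892.BW in
/-- For every real `p > 2`, a bound `‖T ^ n‖_p ≤ C n ^ (1 - 2/p)` for infinitely many `n` implies
Pitt's inequality with the constant `π ^ (1 - 2/p) C`; and for every real `p ∈ [2.2, 6]` the sequence
`(π / n) ^ (1 - 2/p) ‖T ^ n‖_p` converges to the best constant in Pitt's inequality. -/
theorem result :
    (∀ p C : ℝ, 2 < p → 0 < C →
      (∃ᶠ n : ℕ in atTop, Bound n p (C * (n : ℝ) ^ (1 - 2 / p))) →
        Pitt p (Real.pi ^ (1 - 2 / p) * C)) ∧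
    ∀ p : ℝ, 11 / 5 ≤ p → p ≤ 6 →
      Tendsto (fun n : ℕ => (Real.pi / n) ^ (1 - 2 / p) * normT n p) atTop (𝓝 (pittConst p)) := by
  have hfoc : E_FOC := FOC.t
  have hden : E_DEN := DEN.t
  have hval : E_VAL := LIM.t_val Pool.Agent.H78.PB.ALL.ful hfoc hden
    Pool.Agent.N892.BW.ALL.lwb Pool.Agent.N892.BW.ALL.asr ALLC.cfi Pool.Agent.H78.PB.ALL.main
  constructor
  · intro p C hp hC hfr
    have h2 : p = 2 * (p / 2) := by ring
    have hm : 1 < p / 2 := by linarith
    have e : ∀ x : ℝ, x ^ (1 - 2 / p) = x ^ (1 - 1 / (p / 2)) := by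
      intro x
      congr 1
      field_simp
    have hP : Pit (p / 2) C := by
      refine hden (p / 2) C hm hC (hfoc (p / 2) C hm hC (hfr.mono fun n hn f => ?_))
      have := hn f
      rw [e] at this
      rw [← h2]
      exact this
    have := (FOU.iff' hm hC.le).1 hP
    rw [← h2, ← e] at this
    exact this
  · intro p hp1 hp2
    have h2 : p = 2 * (p / 2) := by ring
    have hm : 1 < p / 2 := by linarith
    have hR : Rg (p / 2) := ⟨by linarith, by linarith⟩
    have e : ∀ x : ℝ, x ^ (1 - 2 / p) = x ^ (1 - 1 / (p / 2)) := by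
      intro x
      congr 1
      field_simp
    have hPex : ∀ m : ℝ, Rg m → ∃ G : ℝ, 0 < G ∧ Pit m G := by
      intro m hm'
      have hm1 : 11 / 10 ≤ m := hm'.1
      have hm3 : m ≤ 3 := hm'.2
      refine ⟨2 * m - 1, by linarith, LIM.down hfoc hden hm' (by linarith) (Eventually.frequently ?_)⟩
      obtain ⟨n₀, h⟩ := Pool.Agent.H78.PB.ALL.main 6
      filter_upwards [eventually_ge_atTop n₀] with n hn f
      have := h n hn (2 * m) (by linarith) (by linarith) f
      have e' : (n : ℝ) ^ (1 - 2 / (2 * m)) * (2 * m - 1) = (2 * m - 1) * (n : ℝ) ^ (1 - 1 / m) := by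
        rw [mul_comm]
        congr 2
        field_simp
      rwa [e'] at this
    have hlim : E_LIM := LIM.t_lim Pool.Agent.H78.PB.ALL.ful hfoc hden hval hPex
    have h := (hlim (p / 2) hR).const_mul (Real.pi ^ (1 - 1 / (p / 2)))
    rw [← FOU.PC_eq hm, ← h2] at h
    refine h.congr fun n => ?_
    have hn : normT n p = NT (p / 2) n := by
      unfold normT NT
      rw [← h2]
      rfl
    rw [hn, Real.div_rpow Real.pi_pos.le (Nat.cast_nonneg n), e, e]
    ring

end Pool.Agent.Results.MP_3dd6d4_an.LimitIsPittConstant
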